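import Mathlib
import Pool.Agent.H321R2.OSI.Lower

/-!
# Q1: constant failure probability does not give relative error `1 + O(ε)`
-/

namespace Pool.Agent.Results.MP_082b65_an.ConstantFailure

open MeasureTheory Matrix Finset Pool.Agent.H321R2.OSI

/-- The relative-error statement asked for in Q1, for oblivious subspace injections with failure
probability `δ`, and only for small `ε` (`ε < ε₀`): with absolute constants `C`, `p₀ > 0`,
`ε₀ > 0`, for every matrix `A`, every `r ≥ 1` and every OSI `S` with dimension `r` and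
injectivity `1 - ε`, the bound `‖A - Ã‖_F ≤ (1 + C ε) ‖A - A_r‖_F` holds with probability at
least `p₀`. -/
def RelativeErrorBound (δ : ℝ) : Prop :=
  ∃ C p₀ ε₀ : ℝ, 0 < p₀ ∧ 0 < ε₀ ∧ ∀ ε : ℝ, 0 < ε → ε < 1 → ε < ε₀ →
    ∀ (n d k r : ℕ), 1 ≤ r → ∀ (A : Matrix (Fin n) (Fin d) ℝ)
      (W : Type) (_ : MeasurableSpace W) (P : Measure W) (_ : IsProbabilityMeasure P)
      (S : W → Matrix (Fin d) (Fin k) ℝ), IsOSI P S r (1 - ε) δ →
        p₀ ≤ P.real {w | frob (A - rsvd A (S w)) ≤ (1 + C * ε) * bestErr A r}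

/-- For every constant failure probability there is one matrix and one random test matrix which is
an OSI of dimension one with injectivity `1 - ε` for all `ε ≥ 0` at once, while for every outcome
the error of the randomized SVD exceeds the optimal error by a constant factor `1 + c`. -/
theorem strong (δ : ℝ) (hδ : 0 < δ) : ∃ c : ℝ, 0 < c ∧ ∃ (d k : ℕ)
    (A : Matrix (Fin d) (Fin d) ℝ) (W : Type) (_ : MeasurableSpace W) (P : Measure W)
    (_ : IsProbabilityMeasure P) (S : W → Matrix (Fin d) (Fin k) ℝ),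
    (∀ ε : ℝ, 0 ≤ ε → IsOSI P S 1 (1 - ε) δ) ∧
      0 ≤ bestErr A 1 ∧
      ∀ w, (1 + c) * bestErr A 1 < frob (A - rsvd A (S w)) := by
  obtain ⟨K, hK2, hKδ⟩ : ∃ K : ℕ, 2 ≤ K ∧ 2 ≤ δ * K := by
    obtain ⟨K, hK⟩ := exists_nat_ge (2 / δ)
    refine ⟨max 2 K, le_max_left _ _, ?_⟩
    have h1 : (K : ℝ) ≤ ((max 2 K : ℕ) : ℝ) := by exact_mod_cast le_max_right 2 K
    rw [div_le_iff₀ hδ] at hK
    calc (2 : ℝ) ≤ K * δ := hK
      _ ≤ ((max 2 K : ℕ) : ℝ) * δ := mul_le_mul_of_nonneg_right h1 hδ.le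
      _ = _ := mul_comm _ _
  have hKr : (2 : ℝ) ≤ K := by exact_mod_cast hK2
  have hKpos : (0 : ℝ) < K := by linarith
  haveI : NeZero K := ⟨by omega⟩
  obtain ⟨p, hp1, hp⟩ := Nat.exists_infinite_primes (32 * K ^ 4 + 2)
  haveI : Fact p.Prime := ⟨hp⟩
  have hpr : 32 * (K : ℝ) ^ 4 + 2 ≤ p := by exact_mod_cast hp1
  obtain ⟨w, hw1, hw2, hw3⟩ := exists_lowcoh p
  set s : ℝ := 1 / (2 * (K : ℝ) ^ 2) with hs
  have hK2r : (4 : ℝ) ≤ (K : ℝ) ^ 2 := by nlinarith
  have hK4r : (16 : ℝ) ≤ (K : ℝ) ^ 4 := by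
    have : (K : ℝ) ^ 4 = (K : ℝ) ^ 2 * (K : ℝ) ^ 2 := by ring
    nlinarith
  have hs0 : 0 < s := by positivity
  have hs1 : s ≤ 1 := by
    rw [hs, div_le_one (by positivity)]
    linarith
  have hs2 : s ^ 2 = 1 / (4 * (K : ℝ) ^ 4) := by
    rw [hs]; field_simp; ring
  have hs2le : s ^ 2 ≤ 1 := by nlinarith
  have hgram1 : ∀ j, gram (brow s w) j j = 1 := by
    intro j
    refine Fin.cases ?_ (fun l => ?_) j
    · exact gram_brow_zero s w
    · rw [gram_brow_succ s hs2le, hw1]; ring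
  have hp1' : (0 : ℝ) < (p : ℝ) - 1 := by nlinarith
  have hinv : 1 / ((p : ℝ) - 1) ≤ 1 / (32 * (K : ℝ) ^ 4) := by
    apply one_div_le_one_div_of_le (by positivity)
    linarith
  have hgram2 : ∀ j l, j ≠ l → |gram (brow s w) j l| ≤ s := by
    have hss : ∀ j l : Fin (p ^ 3), j ≠ l → |gram (brow s w) j.succ l.succ| ≤ s := by
      intro j l hjl
      rw [gram_brow_succ s hs2le]
      have h1 := hw2 j l hjl
      have h2 : |(1 - s ^ 2) * ∑ i, w j i * w l i| ≤ 1 / (32 * (K : ℝ) ^ 4) := by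
        rw [abs_mul, abs_of_nonneg (by linarith : (0 : ℝ) ≤ 1 - s ^ 2)]
        calc (1 - s ^ 2) * |∑ i, w j i * w l i| ≤ 1 * |∑ i, w j i * w l i| :=
              mul_le_mul_of_nonneg_right (by nlinarith) (abs_nonneg _)
          _ ≤ 1 / (32 * (K : ℝ) ^ 4) := by rw [one_mul]; exact h1.trans hinv
      have h3 : 1 / (32 * (K : ℝ) ^ 4) ≤ s ^ 2 := by
        rw [hs2]
        apply one_div_le_one_div_of_le (by positivity)
        nlinarith
      have h4 : 2 * s ^ 2 ≤ s := by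
        have : s ≤ 1 / 2 := by
          rw [hs]
          apply one_div_le_one_div_of_le (by norm_num)
          linarith
        nlinarith
      calc |s ^ 2 + (1 - s ^ 2) * ∑ i, w j i * w l i|
          ≤ |s ^ 2| + |(1 - s ^ 2) * ∑ i, w j i * w l i| := abs_add_le _ _
        _ ≤ s ^ 2 + s ^ 2 := by
            rw [abs_of_nonneg (sq_nonneg s)]
            linarith
        _ ≤ s := by linarith
    intro j l
    refine Fin.cases ?_ (fun j' => ?_) j
    · refine Fin.cases (fun h => absurd rfl h) (fun l' _ => ?_) l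
      rw [gram_brow_zero_succ, abs_of_pos hs0]
    · refine Fin.cases (fun _ => ?_) (fun l' h => ?_) l
      · rw [gram_symm, gram_brow_zero_succ, abs_of_pos hs0]
      · exact hss j' l' (fun h' => h (by rw [h']))
  have hμK : 2 * s ^ 2 * (K : ℝ) ^ 3 ≤ 1 := by
    rw [hs2]
    have : 2 * (1 / (4 * (K : ℝ) ^ 4)) * (K : ℝ) ^ 3 = 1 / (2 * K) := by
      field_simp; ring
    rw [this, div_le_one (by positivity)]
    linarith
  have hk : ((p ^ 2 : ℕ) : ℝ) + 1 ≤ ((p ^ 3 : ℕ) : ℝ) * s ^ 2 / 4 := by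
    rw [hs2]
    push_cast
    have hpp : (0 : ℝ) < (p : ℝ) := by linarith
    have h1 : (p : ℝ) ^ 3 * (1 / (4 * (K : ℝ) ^ 4)) / 4 = (p : ℝ) ^ 2 * (p / (16 * (K : ℝ) ^ 4)) := by
      field_simp; ring
    rw [h1]
    have h2 : 2 ≤ (p : ℝ) / (16 * (K : ℝ) ^ 4) := by
      rw [le_div_iff₀ (by positivity)]
      linarith
    have h3 : (1 : ℝ) ≤ (p : ℝ) ^ 2 := by nlinarith
    nlinarith
  have hN : 0 < p ^ 3 := pow_pos hp.pos 3
  have hNr : (0 : ℝ) < ((p ^ 3 : ℕ) : ℝ) := by exact_mod_cast hN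
  refine ⟨s ^ 2 / 16, by positivity, p ^ 3 + 1, p ^ 2 + 1, diagonal (avec (p ^ 3)),
    Smp K (p ^ 3 + 1), inferInstance, unif _, inferInstance, Smat K (brow s w), ?_, ?_, ?_⟩
  · intro ε hε
    exact isOSI_Smat hK2 (brow s w) hgram1 s hgram2 hμK δ hKδ ε hε
  · unfold bestErr
    apply Real.sInf_nonneg
    rintro e ⟨B, _, rfl⟩
    exact Real.sqrt_nonneg _
  · intro ω
    have h1 := err_lower hK2 s hs1 hs0 w hw3 hN hk ω
    have h2 := bestErr_le (p ^ 3)
    have h3 : (1 + s ^ 2 / 16) * bestErr (diagonal (avec (p ^ 3))) 1 ≤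
        (1 + s ^ 2 / 16) * Real.sqrt ((p ^ 3 : ℕ) : ℝ) :=
      mul_le_mul_of_nonneg_left h2 (by positivity)
    refine lt_of_le_of_lt h3 ?_
    refine lt_of_pow_lt_pow_left₀ 2 (Real.sqrt_nonneg _) (lt_of_lt_of_le ?_ h1)
    rw [mul_pow, Real.sq_sqrt hNr.le]
    have h4 : (1 + s ^ 2 / 16) ^ 2 < 1 + s ^ 2 / 4 := by
      have : 0 < s ^ 2 := by positivity
      nlinarith
    nlinarith

/-- **Negative answer to Q1**, for every constant failure probability `δ > 0` (in particular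
`δ = 0.01`). -/
theorem result : ∀ δ : ℝ, 0 < δ → ¬ RelativeErrorBound δ := by
  rintro δ hδ ⟨C, p₀, ε₀, hp₀, hε₀, h⟩
  obtain ⟨c, hc, d, k, A, W, mW, P, hP, S, hS, hb, hw⟩ := strong δ hδ
  -- choose ε with C ε ≤ c
  obtain ⟨ε, hε, hε1, hεε₀, hCε⟩ : ∃ ε : ℝ, 0 < ε ∧ ε < 1 ∧ ε < ε₀ ∧ C * ε ≤ c := by
    refine ⟨min (min (1 / 2) (ε₀ / 2)) (c / (|C| + 1)), ?_, ?_, ?_, ?_⟩
    · have : 0 < |C| + 1 := by positivity
      positivity
    · exact lt_of_le_of_lt ((min_le_left _ _).trans (min_le_left _ _)) (by norm_num)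
    · exact lt_of_le_of_lt ((min_le_left _ _).trans (min_le_right _ _)) (by linarith)
    · set ε := min (min (1 / 2 : ℝ) (ε₀ / 2)) (c / (|C| + 1)) with hεdef
      have hpos : 0 < |C| + 1 := by positivity
      have hε0 : 0 ≤ ε := by positivity
      have h1 : ε ≤ c / (|C| + 1) := min_le_right _ _
      calc C * ε ≤ (|C| + 1) * ε := by
            apply mul_le_mul_of_nonneg_right _ hε0
            linarith [le_abs_self C]
        _ ≤ (|C| + 1) * (c / (|C| + 1)) := mul_le_mul_of_nonneg_left h1 hpos.le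
        _ = c := by field_simp
  have h1 := h ε hε hε1 hεε₀ d d k 1 le_rfl A W mW P hP S (hS ε hε.le)
  have h2 : {w | frob (A - rsvd A (S w)) ≤ (1 + C * ε) * bestErr A 1} = ∅ := by
    ext w
    simp only [Set.mem_ofPred_eq, Set.mem_empty_iff_false, iff_false, not_le]
    refine lt_of_le_of_lt ?_ (hw w)
    exact mul_le_mul_of_nonneg_right (by linarith) hb
  rw [h2] at h1
  simp at h1
  linarith

end Pool.Agent.Results.MP_082b65_an.ConstantFailure
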