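import Mathlib
import Pool.Agent.H321R2.OSI.Prob
import Pool.Agent.H321R2.OSI.Unif

/-!
# Q2: polynomially small failure probability gives relative error `1 + O(ε)`
-/

namespace Pool.Agent.Results.MP_082b65_an.PolynomialFailure

open MeasureTheory Matrix Finset Pool.Agent.H321R2.OSI

/-- The bound of Q2 on the range `0 < ε ≤ ε₀`, `ε < 1`: for every failure probability
`δ ≤ ε ^ c`, every real matrix `A` (`n × d`), every `1 ≤ r ≤ d` and every random `d × k` matrix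
`S` that is an oblivious subspace injection with dimension `r`, injectivity `1 - ε` and failure
probability `δ`, there is an event `D` of probability at least `p₀` on which the randomized SVD
satisfies `‖A - Ã‖_F ≤ (1 + C ε) ‖A - A_r‖_F`. -/
def PolyBound (ε₀ C : ℝ) (c : ℕ) (p₀ : ℝ) : Prop :=
  ∀ ε : ℝ, 0 < ε → ε ≤ ε₀ → ε < 1 → ∀ δ : ℝ, δ ≤ ε ^ c →
    ∀ (n d k r : ℕ), 1 ≤ r → r ≤ d → ∀ (A : Matrix (Fin n) (Fin d) ℝ)
      (W : Type) (_ : MeasurableSpace W) (P : Measure W) (_ : IsProbabilityMeasure P)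
      (S : W → Matrix (Fin d) (Fin k) ℝ), IsOSI P S r (1 - ε) δ →
        ∃ D : Set W, MeasurableSet D ∧ p₀ ≤ P.real D ∧
          ∀ w ∈ D, frob (A - rsvd A (S w)) ≤ (1 + C * ε) * bestErr A r

lemma bestErr_nonneg {n d : ℕ} (A : Matrix (Fin n) (Fin d) ℝ) (r : ℕ) : 0 ≤ bestErr A r := by
  unfold bestErr
  apply Real.sInf_nonneg
  rintro e ⟨B, _, rfl⟩
  exact Real.sqrt_nonneg _

/-- `ε ≤ 1/2`, `δ ≤ ε²`. -/
theorem fine : PolyBound (1 / 2) 60 2 (1 / 2) := by
  intro ε hε hε1 _ δ hδ n d k r hr hrd A W mW P hP S hS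
  obtain ⟨r, rfl⟩ : ∃ q, r = q + 1 := ⟨r - 1, by omega⟩
  obtain ⟨U, hU, hAU⟩ := exists_minimizer A hrd
  have h1 := assemble hS (by linarith) (by nlinarith) U hU (30 * ε) (by positivity)
    (fun e he => row_bound hS hε hε1 hδ U hU e he) A (bestErr A (r + 1)) (bestErr_nonneg A _) hAU
  have h2 : (1 + 2 * (30 * ε)) = 1 + 60 * ε := by ring
  rw [h2] at h1
  exact h1

/-- every range `ε ≤ ε₀ < 1`, with constants depending on `ε₀` -/
theorem locally_uniform (ε₀ : ℝ) (h0 : ε₀ < 1) : ∃ (C : ℝ) (c : ℕ), PolyBound ε₀ C c (1 / 2) := by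
  set e₀ := max ε₀ (1 / 2) with he₀
  have he1 : e₀ < 1 := max_lt h0 (by norm_num)
  have he0 : 0 < e₀ := lt_of_lt_of_le (by norm_num) (le_max_right _ _)
  obtain ⟨c, hc⟩ := exists_pow_lt_of_lt_one (by norm_num : (0 : ℝ) < 1 / 4) he1
  refine ⟨60 + 4 * (1 - e₀)⁻¹, c + 2, ?_⟩
  intro ε hε hεε₀ hε1 δ hδ n d k r hr hrd A W mW P hP S hS
  have hinv : 0 < (1 - e₀)⁻¹ := inv_pos.2 (by linarith)
  have hmono : ∀ C' : ℝ, C' ≤ (60 + 4 * (1 - e₀)⁻¹) * ε → ∀ w,
      frob (A - rsvd A (S w)) ≤ (1 + C') * bestErr A r →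
      frob (A - rsvd A (S w)) ≤ (1 + (60 + 4 * (1 - e₀)⁻¹) * ε) * bestErr A r := by
    intro C' hC' w hw
    exact le_trans hw (mul_le_mul_of_nonneg_right (by linarith) (bestErr_nonneg A r))
  rcases le_or_gt ε (1 / 2) with h | h
  · have h1 : δ ≤ ε ^ 2 := hδ.trans (pow_le_pow_of_le_one hε.le hε1.le (by omega))
    obtain ⟨D, hD1, hD2, hD3⟩ := fine ε hε h hε1 δ h1 n d k r hr hrd A W mW P hP S hS
    refine ⟨D, hD1, hD2, fun w hw => hmono (60 * ε) ?_ w (hD3 w hw)⟩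
    nlinarith [mul_pos hinv hε]
  · have hεe : ε ≤ e₀ := hεε₀.trans (le_max_left _ _)
    have h1 : δ ≤ 1 / 4 := by
      calc δ ≤ ε ^ (c + 2) := hδ
        _ ≤ e₀ ^ (c + 2) := pow_le_pow_left₀ hε.le hεe _
        _ ≤ e₀ ^ c := pow_le_pow_of_le_one he0.le he1.le (by omega)
        _ ≤ 1 / 4 := hc.le
    obtain ⟨U, hU, hAU⟩ := exists_minimizer A hrd
    obtain ⟨D, hD1, hD2, hD3⟩ := assemble hS (by linarith) h1 U hU (1 - e₀)⁻¹ hinv
      (fun e _ => row_bound_coarse hS (by linarith : 0 < 1 - e₀) (by linarith) U hU e)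
      A (bestErr A r) (bestErr_nonneg A _) hAU
    refine ⟨D, hD1, hD2, fun w hw => hmono (2 * (1 - e₀)⁻¹) ?_ w (hD3 w hw)⟩
    nlinarith [mul_pos hinv hε]

/-- the test matrix that vanishes with probability `1 - 1/K` -/
noncomputable def Sbad (K : ℕ) (w : Fin (K + 2)) : Matrix (Fin 1) (Fin 1) ℝ :=
  if w = 0 then Real.sqrt ((K : ℝ) + 2) • 1 else 0

lemma Sbad_isOSI (K : ℕ) (ε : ℝ) (hε : 0 ≤ ε) :
    IsOSI (unif (Fin (K + 2))) (Sbad K) 1 (1 - ε) (1 - 1 / ((K : ℝ) + 2)) := by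
  have hK : (0 : ℝ) < (K : ℝ) + 2 := by positivity
  have h0 : ∀ x : Fin 1 → ℝ, sqn ((Sbad K 0)ᵀ *ᵥ x) = ((K : ℝ) + 2) * sqn x := by
    intro x
    unfold Sbad
    rw [if_pos rfl, Matrix.transpose_smul, Matrix.transpose_one, Matrix.smul_mulVec,
      Matrix.one_mulVec, sqn_smul', Real.sq_sqrt hK.le]
  have h1 : ∀ w : Fin (K + 2), w ≠ 0 → ∀ x : Fin 1 → ℝ, sqn ((Sbad K w)ᵀ *ᵥ x) = 0 := by
    intro w hw x
    unfold Sbad
    rw [if_neg hw, Matrix.transpose_zero, Matrix.zero_mulVec, sqn_zero]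
  refine ⟨fun i j => measurable_of_finite _, fun x => Integrable.of_finite, fun x => ?_,
    fun V _ => ?_⟩
  · rw [unif_integral, Fintype.sum_eq_single 0 (fun w hw => h1 w hw x), h0]
    simp only [Fintype.card_fin]
    push_cast
    field_simp
  · classical
    refine unif_real_ge _ _ (univ.erase 0) ?_ _ ?_
    · intro w hw
      have hw0 : w = 0 := by
        by_contra h
        exact hw (mem_erase.2 ⟨h, mem_univ _⟩)
      rw [Set.mem_ofPred_eq]
      intro x _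
      rw [hw0, h0]
      have h2 := sqn_nonneg x
      have h3 : (0 : ℝ) ≤ K := Nat.cast_nonneg K
      nlinarith [mul_nonneg hε h2, mul_nonneg h3 h2]
    · rw [card_erase_of_mem (mem_univ _), card_univ, Fintype.card_fin]
      have : ((K + 2 - 1 : ℕ) : ℝ) = (K : ℝ) + 1 := by
        have : K + 2 - 1 = K + 1 := by omega
        rw [this]; push_cast; ring
      rw [this]
      push_cast
      field_simp
      linarith

/-- As `ε → 1` the condition `δ ≤ ε ^ c` becomes void, so the range of `ε` must stay away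
from `1`. -/
theorem range_necessary (C : ℝ) (c : ℕ) (p₀ : ℝ) (hp : 0 < p₀) : ¬ PolyBound 1 C c p₀ := by
  intro h
  obtain ⟨K, hK⟩ := exists_nat_gt (1 / p₀)
  have hK2 : (0 : ℝ) < (K : ℝ) + 2 := by positivity
  set t : ℝ := 1 / (((K : ℝ) + 2) * ((c : ℝ) + 1)) with ht
  have hc1 : (1 : ℝ) ≤ (c : ℝ) + 1 := by
    have : (0 : ℝ) ≤ c := Nat.cast_nonneg c
    linarith
  have ht0 : 0 < t := by positivity
  have ht1 : t ≤ 1 / 2 := by
    rw [ht]
    apply one_div_le_one_div_of_le (by norm_num)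
    have : (0 : ℝ) ≤ K := Nat.cast_nonneg K
    nlinarith
  have hct : (c : ℝ) * t ≤ 1 / ((K : ℝ) + 2) := by
    rw [ht, mul_one_div, div_le_div_iff₀ (by positivity) hK2]
    nlinarith
  have hpow : 1 - 1 / ((K : ℝ) + 2) ≤ (1 - t) ^ c := by
    have := one_add_mul_le_pow (a := -t) (by linarith) c
    have h2 : (1 : ℝ) + -t = 1 - t := by ring
    rw [h2] at this
    linarith
  obtain ⟨D, -, h1, hD⟩ := h (1 - t) (by linarith) (by linarith) (by linarith) _ hpow 1 1 1 1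
    le_rfl le_rfl (1 : Matrix (Fin 1) (Fin 1) ℝ) (Fin (K + 2)) inferInstance (unif (Fin (K + 2)))
    inferInstance (Sbad K) (Sbad_isOSI K (1 - t) (by linarith))
  have hb : bestErr (1 : Matrix (Fin 1) (Fin 1) ℝ) 1 = 0 := by
    apply le_antisymm _ (bestErr_nonneg _ _)
    unfold bestErr
    refine csInf_le ⟨0, ?_⟩ ⟨1, ?_, ?_⟩
    · rintro e ⟨B, _, rfl⟩
      exact Real.sqrt_nonneg _
    · exact (Matrix.rank_le_width _)
    · unfold frob; simp
  have hsub : D ⊆ {(0 : Fin (K + 2))} := by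
    intro w hwD
    have hw := hD w hwD
    rw [hb, mul_zero] at hw
    by_contra hne
    have hne' : w ≠ 0 := hne
    have h2 : rsvd (1 : Matrix (Fin 1) (Fin 1) ℝ) (Sbad K w) = 0 := by
      unfold rsvd Sbad
      rw [if_neg hne', Matrix.mul_zero, Matrix.zero_mul, Matrix.zero_mul]
    rw [h2, sub_zero] at hw
    have h3 : frob (1 : Matrix (Fin 1) (Fin 1) ℝ) = 1 := by
      unfold frob; simp
    rw [h3] at hw
    linarith
  have h2 := h1.trans (measureReal_mono hsub)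
  classical
  rw [unif_real] at h2
  have h3 : (univ.filter (fun w : Fin (K + 2) => w ∈ ({0} : Set (Fin (K + 2))))).card = 1 := by
    rw [card_eq_one]
    exact ⟨0, by ext w; simp⟩
  rw [h3, Fintype.card_fin] at h2
  push_cast at h2
  rw [le_div_iff₀ hK2] at h2
  rw [div_lt_iff₀ hp] at hK
  nlinarith

/-- **Positive answer to Q2.** With failure probability `δ ≤ ε²` the relative-error bound holds
with constant `60` and probability at least `1/2` for all `ε ≤ 1/2`; on every range `ε ≤ ε₀ < 1`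
it holds with constants `C`, `c` depending on `ε₀` only; and on the full range `ε < 1` no
constants exist, because the condition `δ ≤ ε ^ c` is void as `ε → 1`. -/
theorem result : PolyBound (1 / 2) 60 2 (1 / 2) ∧
    (∀ ε₀ : ℝ, ε₀ < 1 → ∃ (C : ℝ) (c : ℕ), PolyBound ε₀ C c (1 / 2)) ∧
    (∀ (C : ℝ) (c : ℕ) (p₀ : ℝ), 0 < p₀ → ¬ PolyBound 1 C c p₀) :=
  ⟨fine, locally_uniform, range_necessary⟩

end Pool.Agent.Results.MP_082b65_an.PolynomialFailure
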